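import Pool.Agent.Helper92_SBG.Rd

/-!
# Squad SBG, module LWB: every separating quotient is large
-/

namespace Pool.Agent.SBG.H67

open Pool.Agent.SBG Sy

section

variable {k : ℕ}

/-- The coordinates in the blocks vanish. -/
def Ez (x : W k) : Prop := ∀ i s, x (Sum.inl (Sum.inl (i, s))) = 0

lemma Ez.dn {x : W k} (h : Ez x) : Ez (Dn x) := by
  intro i s
  have h' := h i
  cases s <;> simp [Dn, DSy, h']

lemma Ez.bf {x : W k} (h : Ez x) (y : W k) : Bf x y = 0 := by
  have h' := fun i s => h i s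
  have h0 : bz x y = 0 := by
    funext j
    fin_cases j <;> simp [bz, bf0, bf1, be0, be1, pv, h']
  rw [Bf, h0, zin_zero]

lemma Ez.bf' {x : W k} (h : Ez x) (y : W k) : Bf y x = 0 := by
  rw [Bf_swap, h.bf, neg_zero]

lemma Ez.add {x y : W k} (h : Ez x) (h' : Ez y) : Ez (x + y) := by
  intro i s
  rw [Pi.add_apply, h i s, h' i s, add_zero]

lemma Ez.neg {x : W k} (h : Ez x) : Ez (-x) := by
  intro i s
  rw [Pi.neg_apply, h i s, neg_zero]

lemma Ez.zsmul {x : W k} (h : Ez x) (m : ℤ) : Ez (m • x) := by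
  intro i s
  rw [Pi.smul_apply, h i s, smul_zero]

lemma Ez.tp {x : W k} (h : Ez x) (m : ℤ) : Ez (tp m x) := by
  rw [tp_expand, Fx]
  exact ((h.add (h.dn.zsmul _)).add (h.dn.dn.zsmul _)).add (h.dn.dn.dn.zsmul _)

/-- The vector `e₁`. -/
def E1 : W k := fun c => if c = Sum.inl (Sum.inr 0) then 1 else 0

lemma E1_ez : Ez (E1 : W k) := by
  intro i s
  simp [E1]

lemma D3_E1 : Dn (Dn (Dn (E1 : W k))) = zin ![0, 1] := by
  funext c
  rcases c with (⟨i, s⟩ | j) | j
  · cases s <;> simp [Dn, DSy, E1, zin]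
  · fin_cases j <;> simp [Dn, E1, zin]
  · fin_cases j <;> simp [Dn, E1, zin]

lemma DDtp (m : ℤ) (x : W k) : Dn (Dn (tp m x + -x)) = m • Dn (Dn (Dn x)) := by
  have hz : ∀ (a : ℤ) (y : W k), Dn (a • y) = a • Dn y := fun a y => by
    rw [← Dh_apply, map_zsmul, Dh_apply]
  have hn : ∀ y : W k, Dn (-y) = -Dn y := fun y => by
    rw [← Dh_apply, map_neg, Dh_apply]
  have h0 : Dn (0 : W k) = 0 := by rw [← Dh_apply, map_zero]
  rw [tp_expand, Fx]
  simp only [Dn_add, hz, hn, Dn_four, h0, smul_zero, Ring.choose_one_right]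
  abel

variable {Q : Type} [Group Q] (π : Gp k →* Q)

/-- `(0, x)` is in the kernel. -/
def KN (x : W k) : Prop := π (⟨0, x⟩ : Gp k) = 1

variable {π}

lemma KN.dn {x : W k} (h : KN π x) (he : Ez x) : KN π (Dn x) := by
  have h1 : (⟨0, Dn x⟩ : Gp k) = (⟨1, 0⟩ : Gp k) * ⟨0, x⟩ * (⟨1, 0⟩ : Gp k)⁻¹ * (⟨0, x⟩ : Gp k)⁻¹ := by
    rw [Gp.conj0, Gp.inv0, Gp.mul0]
    simp only [Bf_zero_left, smul_zero, add_zero, tp_one]
    rw [(he.add he.dn).bf]
    congr 1
    abel
  rw [KN, h1, map_mul, map_mul, map_mul, map_inv, map_inv]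
  rw [KN] at h
  rw [h, mul_one, inv_one, mul_one, mul_inv_cancel]

lemma KN.tp {h : Gp k} (hh : π h = 1) {x : W k} (he : Ez x) : KN π (tp h.m x + -x) := by
  have h1 : (⟨0, SBG.tp h.m x + -x⟩ : Gp k) = h * ⟨0, x⟩ * h⁻¹ * (⟨0, x⟩ : Gp k)⁻¹ := by
    rw [Gp.conj0, Gp.inv0, Gp.mul0, (he.tp _).bf', smul_zero, add_zero, (he.tp _).bf, add_zero]
  rw [KN, h1, map_mul, map_mul, map_mul, map_inv, map_inv, hh, one_mul, inv_one, mul_one,
    mul_inv_cancel]

lemma KN.comm {x : W k} (h : KN π x) (w : W k) : KN π (zin (2 • bz x w)) := by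
  have h1 : (⟨0, zin (2 • bz x w)⟩ : Gp k) =
      (⟨0, x⟩ : Gp k) * ⟨0, w⟩ * (⟨0, x⟩ : Gp k)⁻¹ * (⟨0, w⟩ : Gp k)⁻¹ := by
    rw [Gp.comm0, two_smul, two_smul, zin_add]
    rfl
  rw [KN, h1, map_mul, map_mul, map_mul, map_inv, map_inv]
  rw [KN] at h
  rw [h, one_mul, inv_one, mul_one, mul_inv_cancel]

/-- A central element whose image is in the image of `H` has `λ`-value divisible by `p`. -/
lemma dvd_lam {s : ℤ} {p : ℕ} (hp : p.Prime) {H : Subgroup (Gp k)}
    (hζ : (⟨0, zin ![1, -s]⟩ : Gp k) ∈ H)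
    (hz : ∃ z : Fin 2 → ℤ, (⟨0, zin z⟩ : Gp k) ∈ H ∧ s * z 0 + z 1 = p)
    (hπ : π (⟨0, zin ![0, 1]⟩ : Gp k) ∉ H.map π) {z : Fin 2 → ℤ}
    (h : π (⟨0, zin z⟩ : Gp k) ∈ H.map π) : (p : ℤ) ∣ s * z 0 + z 1 := by
  obtain ⟨H', hH'⟩ : ∃ H' : Subgroup (Gp k), H' = (H.map π).comap π := ⟨_, rfl⟩
  have hle : H ≤ H' := by
    rw [hH']
    exact Subgroup.le_comap_map _ _
  have h1 : ![1, -s] ∈ Lam H' := hle hζ
  have hred : ∀ z ∈ Lam H', ![0, s * z 0 + z 1] ∈ Lam H' := by
    intro z hz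
    have h2 := (Lam H').sub_mem hz ((Lam H').zsmul_mem h1 (z 0))
    have h3 : z - z 0 • ![1, -s] = ![0, s * z 0 + z 1] := by
      funext j
      fin_cases j
      · simp
      · simp
        ring
    rwa [h3] at h2
  obtain ⟨z₀, hz₀, hz₀p⟩ := hz
  have h2 := hred z₀ (hle hz₀)
  rw [hz₀p] at h2
  have h3 : z ∈ Lam H' := by
    change (⟨0, zin z⟩ : Gp k) ∈ H'
    rw [hH']
    exact h
  have h4 := hred z h3
  by_contra hcon
  have hcop : IsCoprime (p : ℤ) (s * z 0 + z 1) :=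
    (Nat.prime_iff_prime_int.1 hp).irreducible.coprime_iff_not_dvd.2 hcon
  obtain ⟨a, b, hab⟩ := hcop
  have h5 := (Lam H').add_mem ((Lam H').zsmul_mem h2 a) ((Lam H').zsmul_mem h4 b)
  have h6 : a • ![0, (p : ℤ)] + b • ![0, s * z 0 + z 1] = ![0, 1] := by
    funext j
    fin_cases j
    · simp
    · simpa using hab
  rw [h6] at h5
  apply hπ
  have h7 : (⟨0, zin ![0, 1]⟩ : Gp k) ∈ H' := h5
  rw [hH'] at h7
  exact h7

/-- The sixteen symbols whose coordinates are used. -/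
abbrev S16 : Type := {s : Sy // s ≠ a1 ∧ s ≠ a2 ∧ s ≠ a3}

/-- The vectors whose images are different. -/
def vec {p : ℕ} (d : (Fin k × S16) ⊕ Fin 4 → Fin p) : W k
  | Sum.inl (Sum.inl (i, s)) =>
    if h : s ≠ a1 ∧ s ≠ a2 ∧ s ≠ a3 then ((d (Sum.inl (i, ⟨s, h⟩)) : ℕ) : ℤ) else 0
  | Sum.inl (Sum.inr j) => ((d (Sum.inr j.castSucc) : ℕ) : ℤ)
  | Sum.inr j => ![0, ((d (Sum.inr 3) : ℕ) : ℤ)] j

lemma small {p : ℕ} (x y : Fin p) (h : (p : ℤ) ∣ (x : ℕ) - (y : ℕ)) : x = y := by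
  have h1 : (((x : ℕ) : ℤ) - ((y : ℕ) : ℤ)) = 0 := by
    apply Int.eq_zero_of_abs_lt_dvd h
    have := x.2
    have := y.2
    rw [abs_lt]
    constructor <;> omega
  apply Fin.ext
  omega

/-- If the differences of all coordinates with symbols not `a` vanish modulo `p`, they vanish. -/
lemma vec_sub {p : ℕ} (d d' : (Fin k × S16) ⊕ Fin 4 → Fin p)
    (h : ∀ i s, s ≠ a1 → s ≠ a2 → s ≠ a3 →
      (p : ℤ) ∣ (vec d - vec d') (Sum.inl (Sum.inl (i, s)))) :
    Ez (vec d - vec d') ∧ ∀ i (s : S16), d (Sum.inl (i, s)) = d' (Sum.inl (i, s)) := by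
  have h1 : ∀ i (s : S16), d (Sum.inl (i, s)) = d' (Sum.inl (i, s)) := by
    rintro i ⟨s, hs⟩
    apply small
    have h2 := h i s hs.1 hs.2.1 hs.2.2
    simp only [Pi.sub_apply, vec] at h2
    rw [dif_pos hs, dif_pos hs] at h2
    exact h2
  refine ⟨?_, h1⟩
  intro i s
  simp only [Pi.sub_apply, vec]
  by_cases hs : s ≠ a1 ∧ s ≠ a2 ∧ s ≠ a3
  · rw [dif_pos hs, dif_pos hs, h1, sub_self]
  · rw [dif_neg hs, dif_neg hs, sub_self]

/-- The unit vector of a coordinate. -/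
def uv (i : Fin k) (s : Sy) : W k := fun c => if c = Sum.inl (Sum.inl (i, s)) then 1 else 0

lemma bz_uv (x : W k) (i : Fin k) (s : Sy) : bz x (uv i s) =
    ![be0 (fun t => x (Sum.inl (Sum.inl (i, t)))) (fun t => if t = s then 1 else 0),
      be1 (fun t => x (Sum.inl (Sum.inl (i, t)))) (fun t => if t = s then 1 else 0)] := by
  have h1 : ∀ i' : Fin k, (fun t => pv (uv i s : W k) (Sum.inl (i', t))) =
      fun t => if i' = i then (if t = s then (1 : ℤ) else 0) else 0 := by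
    intro i'
    funext t
    simp only [pv, uv, Sum.inl.injEq, Prod.mk.injEq]
    by_cases h : i' = i <;> by_cases h' : t = s <;> simp [h, h']
  have h2 : ∀ x : Sy → ℤ, be0 x (fun _ => 0) = 0 := fun x => by simp [be0]
  have h3 : ∀ x : Sy → ℤ, be1 x (fun _ => 0) = 0 := fun x => by simp [be1]
  funext j
  fin_cases j
  · change bf0 (pv x) (pv (uv i s)) = _
    rw [bf0, Finset.sum_eq_single i]
    · rw [h1]
      simp [pv]
    · intro i' _ hi
      rw [h1]
      simp only [if_neg hi]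
      exact h2 _
    · intro h
      exact absurd (Finset.mem_univ _) h
  · change bf1 (pv x) (pv (uv i s)) = _
    rw [bf1, Finset.sum_eq_single i]
    · rw [h1]
      simp [pv]
    · intro i' _ hi
      rw [h1]
      simp only [if_neg hi]
      exact h3 _
    · intro h
      exact absurd (Finset.mem_univ _) h

/-- If `x` is in the kernel and its `a`-coordinates vanish, then the other coordinates vanish
modulo `p`. -/
lemma coords {s : ℤ} {p : ℕ} {x : W k} (ha : ∀ i, x (Sum.inl (Sum.inl (i, a1))) = 0 ∧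
    x (Sum.inl (Sum.inl (i, a2))) = 0 ∧ x (Sum.inl (Sum.inl (i, a3))) = 0)
    (h : ∀ w : W k, (p : ℤ) ∣ s * bz x w 0 + bz x w 1) (i : Fin k) (t : Sy) :
    (p : ℤ) ∣ x (Sum.inl (Sum.inl (i, t))) := by
  obtain ⟨ha1, ha2, ha3⟩ := ha i
  have key : ∀ t, (p : ℤ) ∣ s * be0 (fun t => x (Sum.inl (Sum.inl (i, t))))
      (fun t' => if t' = t then 1 else 0) + be1 (fun t => x (Sum.inl (Sum.inl (i, t))))
      (fun t' => if t' = t then 1 else 0) := by
    intro t
    have h1 := h (uv i t)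
    rw [bz_uv] at h1
    exact h1
  have hb1 := key u1
  have hb2 := key u2
  have hb3 := key u3
  have hc1 := key v1
  have hc2 := key v2
  have hc3 := key v3
  have hv1 := key c1
  have hv2 := key c2
  have hv3 := key c3
  have hu1 := key b1
  have hu2 := key b2
  have hu3 := key b3
  have hyc := key qc
  have hyb := key qb
  have hqb := key yb
  have hqc := key yc
  simp [be0, be1, ha1, ha2, ha3] at hb1 hb2 hb3 hc1 hc2 hc3 hv1 hv2 hv3 hu1 hu2 hu3 hyc hyb hqb hqc
  have two : ∀ y z : ℤ, (p : ℤ) ∣ y → (p : ℤ) ∣ s * y + z → (p : ℤ) ∣ z := by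
    intro y z h1 h2
    exact (Int.dvd_add_right (h1.mul_left s)).1 h2
  have two' : ∀ y z : ℤ, (p : ℤ) ∣ y → (p : ℤ) ∣ -(s * y) + -z → (p : ℤ) ∣ z := by
    intro y z h1 h2
    have h3 := (Int.dvd_add_right ((h1.mul_left s).neg_right)).1 h2
    exact (dvd_neg).1 h3
  cases t
  · rw [ha1]; exact dvd_zero _
  · rw [ha2]; exact dvd_zero _
  · rw [ha3]; exact dvd_zero _
  · exact hb1
  · exact hb2
  · exact hb3
  · exact two _ _ hb1 hc1
  · exact two _ _ hb2 hc2
  · exact two _ _ hb3 hc3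
  · exact two' _ _ hv1 hu1
  · exact two' _ _ hv2 hu2
  · exact two' _ _ hv3 hu3
  · exact hv1
  · exact hv2
  · exact hv3
  · exact two _ _ hyc hyb
  · exact hyc
  · exact hqb
  · exact two' _ _ hqb hqc

lemma card_S16 : Fintype.card S16 = 16 := by decide

/-- LWB. -/
theorem lwb : LwbStmt := by
  classical
  intro k s p hp hp2 H hζ hz
  apply le_relDepth
  intro Q _ _ π hπ
  have hpp : Prime (p : ℤ) := Nat.prime_iff_prime_int.1 hp
  have hdvd : ∀ z : Fin 2 → ℤ, KN π (zin z : W k) → (p : ℤ) ∣ s * z 0 + z 1 := by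
    intro z h
    apply dvd_lam hp hζ hz hπ
    rw [KN] at h
    rw [h]
    exact Subgroup.one_mem _
  -- the last coordinates
  have hfour : ∀ (x : W k), KN π x → Ez x → x (Sum.inr 0) = 0 →
      (p : ℤ) ∣ x (Sum.inl (Sum.inr 0)) ∧ (x (Sum.inl (Sum.inr 0)) = 0 →
        (p : ℤ) ∣ x (Sum.inl (Sum.inr 1)) ∧ (x (Sum.inl (Sum.inr 1)) = 0 →
          (p : ℤ) ∣ x (Sum.inl (Sum.inr 2)) ∧ (x (Sum.inl (Sum.inr 2)) = 0 →
            (p : ℤ) ∣ x (Sum.inr 1)))) := by
    intro x hx he h0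
    have h1 := hx.dn he
    have h2 := h1.dn he.dn
    have h3 := h2.dn he.dn.dn
    have key : ∀ y : W k, KN π y → pv y = 0 → y (Sum.inr 0) = 0 → (p : ℤ) ∣ y (Sum.inr 1) := by
      intro y hy hy0 hy1
      rw [eq_zin_of_pv hy0] at hy
      have h4 := hdvd _ hy
      change (p : ℤ) ∣ s * y (Sum.inr 0) + y (Sum.inr 1) at h4
      rwa [hy1, mul_zero, zero_add] at h4
    have he' := fun i s => he i s
    refine ⟨?_, fun e0 => ⟨?_, fun e1 => ⟨?_, fun e2 => ?_⟩⟩⟩
    · refine key _ h3 ?_ ?_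
      · funext c
        rcases c with ⟨i, t⟩ | j
        · exact he.dn.dn.dn i t
        · fin_cases j <;> simp [Dn, pv]
      · simp [Dn]
    · refine key _ h2 ?_ ?_
      · funext c
        rcases c with ⟨i, t⟩ | j
        · exact he.dn.dn i t
        · fin_cases j <;> simp [Dn, pv, e0]
      · simp [Dn]
    · refine key _ h1 ?_ ?_
      · funext c
        rcases c with ⟨i, t⟩ | j
        · exact he.dn i t
        · fin_cases j <;> simp [Dn, pv, e0, e1]
      · simp [Dn]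
    · refine key _ hx ?_ h0
      funext c
      rcases c with ⟨i, t⟩ | j
      · exact he i t
      · fin_cases j
        · exact e0
        · exact e1
        · exact e2
  let Φ : Fin p × ((Fin k × S16) ⊕ Fin 4 → Fin p) → Q :=
    fun d => π ⟨((d.1 : ℕ) : ℤ), vec d.2⟩
  have hinj : Function.Injective Φ := by
    rintro ⟨a, d⟩ ⟨a', d'⟩ hΦ
    have hΦ' : π (⟨((a : ℕ) : ℤ), vec d⟩ : Gp k) = π ⟨((a' : ℕ) : ℤ), vec d'⟩ := hΦ
    have hh : π ((⟨((a : ℕ) : ℤ), vec d⟩ : Gp k) * (⟨((a' : ℕ) : ℤ), vec d'⟩ : Gp k)⁻¹) = 1 := by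
      rw [map_mul, map_inv, hΦ', mul_inv_cancel]
    have haa : a = a' := by
      apply small
      have h1 := (KN.tp hh E1_ez)
      have h2 := (h1.dn ((E1_ez.tp _).add E1_ez.neg)).dn ((E1_ez.tp _).add E1_ez.neg).dn
      rw [DDtp, D3_E1] at h2
      have h3 : (((⟨((a : ℕ) : ℤ), vec d⟩ : Gp k) * (⟨((a' : ℕ) : ℤ), vec d'⟩ : Gp k)⁻¹).m •
          (zin ![0, 1] : W k)) = zin ![0, (a : ℕ) - (a' : ℕ)] := by
        funext c
        rcases c with c | j
        · simp [zin]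
        · fin_cases j
          · simp [zin]
          · simp [zin]
            ring
      rw [h3] at h2
      have h4 := hdvd _ h2
      simpa using h4
    subst haa
    have hx : KN π (vec d - vec d' - Bf (vec d) (vec d')) := by
      rw [KN, ← hh]
      congr 1
      apply Gp.ext
      · simp
      · simp only [Gp.mul_x, Gp.inv_x, map_neg, tp_tp_neg, Bf_neg_right]
        abel
    have hpv : pv (vec d - vec d' - Bf (vec d) (vec d')) = pv (vec d - vec d') := by
      rw [pv_sub, pv_Bf, sub_zero]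
    have hco : ∀ i t, (p : ℤ) ∣ (vec d - vec d') (Sum.inl (Sum.inl (i, t))) := by
      intro i t
      refine coords (s := s) ?_ ?_ i t
      · intro i
        refine ⟨?_, ?_, ?_⟩ <;> simp [vec]
      · intro w
        have h1 := hdvd _ (hx.comm w)
        have h2 : s * (2 • bz (vec d - vec d' - Bf (vec d) (vec d')) w) 0 +
            (2 • bz (vec d - vec d' - Bf (vec d) (vec d')) w) 1 =
            2 * (s * bz (vec d - vec d') w 0 + bz (vec d - vec d') w 1) := by
          rw [bz_congr (x' := vec d - vec d') (y' := w) hpv rfl]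
          simp only [Pi.smul_apply, nsmul_eq_mul]
          push_cast
          ring
        rw [h2] at h1
        rcases hpp.dvd_or_dvd h1 with h3 | h3
        · exfalso
          have h4 : p ∣ 2 := by exact_mod_cast h3
          exact hp2 ((Nat.prime_dvd_prime_iff_eq hp Nat.prime_two).1 h4)
        · exact h3
    obtain ⟨hez, hd1⟩ := vec_sub d d' (fun i t _ _ _ => hco i t)
    have hBf : Bf (vec d) (vec d') = 0 := by
      have h1 : vec d = vec d' + (vec d - vec d') := by abel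
      rw [h1, Bf_add_left, Bf_self, hez.bf, add_zero]
    rw [hBf, sub_zero] at hx
    obtain ⟨g0, g0'⟩ := hfour _ hx hez (by simp [vec])
    have q0 : d (Sum.inr 0) = d' (Sum.inr 0) := small _ _ g0
    obtain ⟨g1, g1'⟩ := g0' (by simp [vec, q0])
    have q1 : d (Sum.inr 1) = d' (Sum.inr 1) := small _ _ g1
    obtain ⟨g2, g2'⟩ := g1' (by simp [vec, q1])
    have q2 : d (Sum.inr 2) = d' (Sum.inr 2) := small _ _ g2
    have g3 := g2' (by simp [vec, q2])
    have q3 : d (Sum.inr 3) = d' (Sum.inr 3) := small _ _ g3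
    have hd : d = d' := by
      funext c
      rcases c with ⟨i, t⟩ | j
      · exact hd1 i t
      · fin_cases j
        · exact q0
        · exact q1
        · exact q2
        · exact q3
    rw [hd]
  have hcard := Nat.card_le_card_of_injective Φ hinj
  have h2 : Nat.card (Fin p × ((Fin k × S16) ⊕ Fin 4 → Fin p)) = p ^ (16 * k + 5) := by
    rw [Nat.card_eq_fintype_card, Fintype.card_prod, Fintype.card_fun, Fintype.card_sum,
      Fintype.card_prod, card_S16, Fintype.card_fin, Fintype.card_fin, Fintype.card_fin, ← pow_succ']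
    congr 1
    ring
  rw [h2] at hcard
  exact hcard

end

end Pool.Agent.SBG.H67
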